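import Pool.Agent.OMF.Stmts

/-! OMF, row RCI: intersections of rich curves. -/

set_option autoImplicit false

namespace Pool.Agent.OMF.H98

open Finset Pool.Agent.GTO Pool.Agent.OMF
open scoped Classical

theorem cr_add_left (p q : V) : cr (p + q) p = - cr p q := by
  funext i
  fin_cases i <;> simp [cr] <;> ring

theorem cr_swap (p q : V) : cr q p = - cr p q := by
  funext i
  fin_cases i <;> simp [cr] <;> ring

theorem cr_add_right (p q : V) : cr q (p + q) = - cr p q := by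
  funext i
  fin_cases i <;> simp [cr] <;> ring

theorem ip_cr_left (p q : V) : ip (cr p q) p = 0 := by
  simp [ip, cr]; ring

theorem ip_cr_right (p q : V) : ip (cr p q) q = 0 := by
  simp [ip, cr]; ring

theorem ip_add (w p q : V) : ip w (p + q) = ip w p + ip w q := by
  simp [ip]; ring

theorem ip_zero_left (v : V) : ip 0 v = 0 := by simp [ip]

/-- `quad e (p + q)` is not zero for two zeros on a conic without line. -/
theorem mid (lnq : LnqStmt) (e : Fin 6 → ℝ) (he : NoLineQ e) (p q : V) (h : cr p q ≠ 0)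
    (hp : quad e p = 0) (hq : quad e q = 0) : quad e (p + q) ≠ 0 := by
  intro hr
  refine lnq.1 e (cr p q) p q (p + q) he h (ip_cr_left p q) (ip_cr_right p q) ?_ hp hq hr h ?_ ?_
  · rw [ip_add, ip_cr_left, ip_cr_right, add_zero]
  · rw [cr_add_right]
    exact neg_ne_zero.2 h
  · rw [cr_add_left]
    exact neg_ne_zero.2 h

theorem quad_sub (e e' : Fin 6 → ℝ) (t : ℝ) (v : V) :
    quad (e' - t • e) v = quad e' v - t * quad e v := by
  simp [quad]; ring

theorem conics (lnf : LnfStmt) (lnq : LnqStmt) (e e' : Fin 6 → ℝ) (p : Fin 5 → V)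
    (he : NoLineQ e) (he' : NoLineQ e') (hp : ∀ i j, i ≠ j → cr (p i) (p j) ≠ 0)
    (hz : ∀ i, quad e (p i) = 0 ∧ quad e' (p i) = 0) : ∃ t : ℝ, t ≠ 0 ∧ e' = t • e := by
  have h01 : cr (p 0) (p 1) ≠ 0 := hp 0 1 (by decide)
  set w := cr (p 0) (p 1) with hw
  set r := p 0 + p 1 with hr
  have hqr : quad e r ≠ 0 := mid lnq e he _ _ h01 (hz 0).1 (hz 1).1
  have hqr' : quad e' r ≠ 0 := mid lnq e' he' _ _ h01 (hz 0).2 (hz 1).2
  set t := quad e' r / quad e r with ht
  obtain ⟨m, hm⟩ := lnf.2.1 (e' - t • e) w ![p 0, p 1, r] h01 (by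
    intro i
    fin_cases i
    · refine ⟨ip_cr_left _ _, ?_⟩
      show quad (e' - t • e) (p 0) = 0
      rw [quad_sub, (hz 0).1, (hz 0).2]; ring
    · refine ⟨ip_cr_right _ _, ?_⟩
      show quad (e' - t • e) (p 1) = 0
      rw [quad_sub, (hz 1).1, (hz 1).2]; ring
    · refine ⟨?_, ?_⟩
      · show ip w r = 0
        rw [hr, ip_add, hw, ip_cr_left, ip_cr_right, add_zero]
      · show quad (e' - t • e) r = 0
        rw [quad_sub, ht]
        field_simp
        ring) (by
    have a1 : cr (p 0) r ≠ 0 := by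
      rw [cr_swap, hr, cr_add_left, neg_neg]; exact h01
    have a2 : cr (p 1) r ≠ 0 := by
      rw [hr, cr_add_right]; exact neg_ne_zero.2 h01
    have b0 : cr (p 1) (p 0) ≠ 0 := by rw [cr_swap]; exact neg_ne_zero.2 h01
    have b1 : cr r (p 0) ≠ 0 := by rw [cr_swap]; exact neg_ne_zero.2 a1
    have b2 : cr r (p 1) ≠ 0 := by rw [cr_swap]; exact neg_ne_zero.2 a2
    intro i j hij
    fin_cases i <;> fin_cases j
    · exact absurd rfl hij
    · exact h01
    · exact a1
    · exact b0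
    · exact absurd rfl hij
    · exact a2
    · exact b1
    · exact b2
    · exact absurd rfl hij)
  have hmi : ∀ i : Fin 5, i ≠ 0 → i ≠ 1 → ip m (p i) = 0 := by
    intro i h0 h1
    have h2 := hm (p i)
    rw [quad_sub, (hz i).1, (hz i).2] at h2
    have h3 : ip w (p i) * ip m (p i) = 0 := by rw [← h2]; ring
    refine (mul_eq_zero.1 h3).resolve_left fun h4 => ?_
    exact lnq.1 e w (p 0) (p 1) (p i) he h01 (ip_cr_left _ _) (ip_cr_right _ _) h4
      (hz 0).1 (hz 1).1 (hz i).1 h01 (hp 1 i h1.symm) (hp i 0 h0)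
  have hm0 : m = 0 := by
    by_contra hne
    exact lnq.1 e m (p 2) (p 3) (p 4) he hne (hmi 2 (by decide) (by decide))
      (hmi 3 (by decide) (by decide)) (hmi 4 (by decide) (by decide))
      (hz 2).1 (hz 3).1 (hz 4).1 (hp 2 3 (by decide)) (hp 3 4 (by decide)) (hp 4 2 (by decide))
  have hzero : e' - t • e = 0 := by
    refine lnf.2.2.2.2.1 _ fun v => ?_
    rw [hm v, hm0, ip_zero_left, mul_zero]
  refine ⟨t, ?_, ?_⟩
  · rw [ht]
    exact div_ne_zero hqr' hqr
  · exact sub_eq_zero.1 hzero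

section
variable {ι : Type} [Fintype ι]

theorem inj_of_card (S : Finset ι) (n : ℕ) (h : n ≤ S.card) :
    ∃ f : Fin n → ι, Function.Injective f ∧ ∀ i, f i ∈ S := by
  refine ⟨fun i => (S.equivFin.symm (Fin.castLE h i)).1, ?_, fun i => (S.equivFin.symm _).2⟩
  intro i j hij
  have h1 := S.equivFin.symm.injective (Subtype.ext hij)
  exact Fin.castLE_injective h h1

theorem mem_Zq (a : ι → V) (e : Fin 6 → ℝ) (i : ι) : i ∈ Zq a e ↔ quad e (a i) = 0 := by
  simp [Zq]

theorem mem_Zc (a : ι → V) (c : Fin 10 → ℝ) (i : ι) : i ∈ Zc a c ↔ cub c (a i) = 0 := by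
  simp [Zc]

theorem line_eq (bas : BasStmt) (a : ι → V) (ha : PI a) (ℓ : Finset ι) (hℓ : ℓ ∈ lns a)
    (i j : ι) (hij : i ≠ j) (hi : i ∈ ℓ) (hj : j ∈ ℓ) : ln a i j = ℓ := by
  unfold lns at hℓ
  rw [Finset.mem_image] at hℓ
  obtain ⟨⟨k, l⟩, hkl, rfl⟩ := hℓ
  simp only [mem_filter, mem_univ, true_and] at hkl
  exact (bas.2.2.2.2.2 ι a ha).1 k l i j hkl hij hi hj

theorem noq_ne (e : Fin 6 → ℝ) (he : NoLineQ e) : e ≠ 0 := by
  rintro rfl
  obtain ⟨s, t, h⟩ := he ![1, 0, 0] ![0, 1, 0] (by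
    intro h
    have := congrFun h 2
    simp [cr] at this)
  exact h (by simp [quad])

/-- conic and line -/
theorem lq (bas : BasStmt) (lnq : LnqStmt) (a : ι → V) (ha : PI a) (ℓ : Finset ι)
    (hℓ : ℓ ∈ lns a) (e : Fin 6 → ℝ) (he : NoLineQ e) : (ℓ ∩ Zq a e).card ≤ 2 := by
  by_contra h
  push Not at h
  obtain ⟨f, hf, hm⟩ := inj_of_card _ 3 h
  have m0 := Finset.mem_inter.1 (hm 0)
  have m1 := Finset.mem_inter.1 (hm 1)
  have m2 := Finset.mem_inter.1 (hm 2)
  have n01 : f 0 ≠ f 1 := fun h => absurd (hf h) (by decide)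
  have n12 : f 1 ≠ f 2 := fun h => absurd (hf h) (by decide)
  have n20 : f 2 ≠ f 0 := fun h => absurd (hf h) (by decide)
  refine lnq.2.1 ι a ha e he (f 0) (f 1) (f 2) n01 n12 n20 ?_ m0.2 m1.2 m2.2
  rw [line_eq bas a ha ℓ hℓ _ _ n01 m0.1 m1.1]
  exact m2.1

/-- line and cubic -/
theorem lc (bas : BasStmt) (zzz : ZzzStmt) (a : ι → V) (ha : PI a) (ℓ : Finset ι)
    (hℓ : ℓ ∈ lns a) (c : Fin 10 → ℝ) (hc : NoLine c) : (ℓ ∩ Zc a c).card ≤ 3 := by
  unfold lns at hℓ
  rw [Finset.mem_image] at hℓ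
  obtain ⟨⟨k, l⟩, hkl, rfl⟩ := hℓ
  simp only [mem_filter, mem_univ, true_and] at hkl
  exact (zzz ι a ha).2.2 c k l hc hkl

/-- conic and cubic -/
theorem qc (bz6 : Bz6Stmt) (a : ι → V) (ha : PI a) (c : Fin 10 → ℝ) (hc : NoLine c)
    (e : Fin 6 → ℝ) (he : NoLineQ e) : (Zc a c ∩ Zq a e).card ≤ 6 := by
  by_contra h
  push Not at h
  obtain ⟨f, hf, hm⟩ := inj_of_card _ 7 h
  obtain ⟨i, hi⟩ := bz6 c e (fun i => a (f i)) hc (noq_ne e he)
    (fun i j hij => ha _ _ fun h => hij (hf h))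
  have hmi := Finset.mem_inter.1 (hm i)
  rw [mem_Zc, mem_Zq] at hmi
  rcases hi with hi | hi
  · exact hi hmi.1
  · exact hi hmi.2

/-- conic and conic -/
theorem qq (lnf : LnfStmt) (lnq : LnqStmt) (a : ι → V) (ha : PI a) (e e' : Fin 6 → ℝ)
    (he : NoLineQ e) (he' : NoLineQ e') (hne : Zq a e ≠ Zq a e') :
    (Zq a e ∩ Zq a e').card ≤ 4 := by
  by_contra h
  push Not at h
  obtain ⟨f, hf, hm⟩ := inj_of_card _ 5 h
  obtain ⟨t, ht, hte⟩ := conics lnf lnq e e' (fun i => a (f i)) he he'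
    (fun i j hij => ha _ _ fun h => hij (hf h)) (fun i => by
      have hmi := Finset.mem_inter.1 (hm i)
      rw [mem_Zq, mem_Zq] at hmi
      exact hmi)
  apply hne
  ext i
  rw [mem_Zq, mem_Zq, hte]
  have : quad (t • e) (a i) = t * quad e (a i) := by simp [quad]; ring
  rw [this]
  constructor
  · intro h
    rw [h, mul_zero]
  · intro h
    exact (mul_eq_zero.1 h).resolve_left ht

end

theorem rci (bas : BasStmt) (lnf : LnfStmt) (lnq : LnqStmt) (zzz : ZzzStmt) (bz6 : Bz6Stmt) :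
    RciStmt := by
  refine ⟨?_, conics lnf lnq, ?_, ?_⟩
  · intro ι _ a ha k C hC C' hC' hne
    simp only [RC, mem_filter, mem_univ, true_and] at hC hC'
    obtain ⟨-, hC⟩ := hC
    obtain ⟨-, hC'⟩ := hC'
    rcases hC with hC | ⟨e, he, rfl⟩ | ⟨c, hc, rfl⟩
    · rcases hC' with hC' | ⟨e', he', rfl⟩ | ⟨c', hc', rfl⟩
      · by_contra h
        push Not at h
        obtain ⟨f, hf, hm⟩ := inj_of_card _ 2 (by omega : 2 ≤ (C ∩ C').card)
        have m0 := Finset.mem_inter.1 (hm 0)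
        have m1 := Finset.mem_inter.1 (hm 1)
        have n01 : f 0 ≠ f 1 := fun h => absurd (hf h) (by decide)
        exact hne ((line_eq bas a ha C hC _ _ n01 m0.1 m1.1).symm.trans
          (line_eq bas a ha C' hC' _ _ n01 m0.2 m1.2))
      · exact (lq bas lnq a ha C hC e' he').trans (by norm_num)
      · exact (lc bas zzz a ha C hC c' hc').trans (by norm_num)
    · rcases hC' with hC' | ⟨e', he', rfl⟩ | ⟨c', hc', rfl⟩
      · rw [Finset.inter_comm]
        exact (lq bas lnq a ha C' hC' e he).trans (by norm_num)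
      · exact (qq lnf lnq a ha e e' he he' hne).trans (by norm_num)
      · rw [Finset.inter_comm]
        exact (qc bz6 a ha c' hc' e he).trans (by norm_num)
    · rcases hC' with hC' | ⟨e', he', rfl⟩ | ⟨c', hc', rfl⟩
      · rw [Finset.inter_comm]
        exact (lc bas zzz a ha C' hC' c hc).trans (by norm_num)
      · exact (qc bz6 a ha c hc e' he').trans (by norm_num)
      · by_contra h
        push Not at h
        exact hne ((zzz ι a ha).1 c c' hc ((zzz ι a ha).2.1 c' hc') h).1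
  · intro ι _ a ha c e hc he h10 heq
    have h := qc bz6 a ha c hc e he
    rw [heq, Finset.inter_self] at h
    omega
  · intro ι _ a ha e ℓ hℓ he h3 heq
    have h := lq bas lnq a ha ℓ hℓ e he
    rw [← heq] at h h3
    rw [Finset.inter_self] at h
    omega

end Pool.Agent.OMF.H98
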